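import Pool.Agent.Lib.MP_aad418_lc.Q.Rank

/-! Patterns and types; transfer between a nowhere dense class and a point. -/

namespace Pool.Agent.Lib.MP_aad418_lc

open Set PiNat

/-- The membership vector of a point. -/
def vec {ι : Type} (u : ι → EPi) (a : X) : Set ι := {i | a ∈ (u i).1}

/-- The membership vectors that occur. -/
def pat {ι : Type} (u : ι → EPi) : Set (Set ι) := range (vec u)

/-- The patterns of the extensions of a tuple. -/
def ty {κ : Type} (μ : Type) (u : κ → EPi) : Set (Set (Set (κ ⊕ μ))) :=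
  range fun y : μ → EPi => pat (Sum.elim u y)

theorem vec_elim {κ μ : Type} {u u' : κ → EPi} {y y' : μ → EPi} {a a' : X}
    (h1 : ∀ i, a ∈ (u i).1 ↔ a' ∈ (u' i).1) (h2 : ∀ i, a ∈ (y i).1 ↔ a' ∈ (y' i).1) :
    vec (Sum.elim u y) a = vec (Sum.elim u' y') a' :=
  Set.ext fun i => Sum.rec h1 h2 i

/-- The map that collapses the class to the point zero. -/
noncomputable def toP (S : Site) (ι : List Bool → ℕ) : X → X := S.psi (fun d => wd (ι d)) pt0

/-- A map in the other direction. -/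
noncomputable def frP (t : ℕ → List Bool) (m : X) : X → X := S0.psi (fun d => t d.tail.length) m

section

variable {S : Site} {ι : List Bool → ℕ} {t : ℕ → List Bool} {m : X} {Y : Set X}

theorem frP_pt : frP t m pt0 = m := Site.psi_mem rfl

theorem frP_app (j : ℕ) (y : X) : frP t m (app (wd j) y) = app (t j) y := by
  rw [frP, Site.psi_app (S0_wd j), wd_len]

theorem toP_pi (hι : PrimrecPred fun q : List Bool × ℕ => ι q.1 = q.2)
    (hf : ∀ j, {d | S.D d ∧ ι d = j}.Finite) (hY : IsPi01 Y) : IsPi01 (toP S ι ⁻¹' Y) := by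
  have hl : Primrec fun q : List Bool × List Bool => q.2.tail.length :=
    Primrec.list_length.comp (Primrec.list_tail.comp .snd)
  refine Site.pull ((hι.comp (Primrec.fst.pair hl)).and (Primrec.eq.comp (wd_prim.comp hl) .snd))
    (fun d e => ⟨fun h => h.1 ▸ h.2, ?_⟩) hY fun h0 => ?_
  · rintro rfl
    simp only [wd_len, and_self]
  · refine ((S0.fin hY.isClosed (disjoint_singleton_left.2 h0)).biUnion
      fun e _ => hf e.tail.length).subset fun d hd => ?_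
    exact mem_iUnion₂.2 ⟨_, ⟨S0_wd _, hd.2⟩, hd.1, (wd_len _).symm⟩

theorem frP_pi (ht : PrimrecPred fun q : ℕ × List Bool => t q.1 = q.2) (hY : IsPi01 Y)
    (hf : m ∉ Y → {j | (Y ∩ cyl (t j)).Nonempty}.Finite) : IsPi01 (frP t m ⁻¹' Y) :=
  Site.pull (ht.comp ((Primrec.list_length.comp (Primrec.list_tail.comp .fst)).pair .snd))
    (fun _ _ => Iff.rfl) hY fun h0 => ((hf h0).image wd).subset fun _ hd => ⟨_, hd.2, S0_eq hd.1⟩

theorem to_fr (ht : ∀ j, S.D (t j) ∧ ι (t j) = j) (hm : m ∈ S.M) (b : X) :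
    toP S ι (frP t m b) = b := by
  rcases S0.cases b with rfl | ⟨d, y, hd, rfl⟩
  · rw [frP_pt, toP, Site.psi_mem hm]
  · rw [← S0_eq hd, frP_app, toP, Site.psi_app (ht _).1, (ht _).2]

theorem toP_eq {x : X} : toP S ι x = pt0 ↔ x ∈ S.M := by
  refine ⟨fun h => ?_, Site.psi_mem⟩
  rcases S.cases x with hx | ⟨d, y, hd, rfl⟩
  · exact hx
  · rw [toP, Site.psi_app hd] at h
    exact absurd h (Site.not_mem (S0_wd _) (qp_mem_cyl _ _))

end

variable {κ μ : Type}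

theorem tyA (S : Site) (u : κ → EPi) (hom : ∀ i, S.M ⊆ (u i).1 ∨ Disjoint S.M (u i).1) :
    ∃ u' : κ → EPi, (∀ i, (u i).1 = S.M → (u' i).1 = {pt0}) ∧ ty μ u' ⊆ ty μ u := by
  obtain ⟨ι, h1, h2, h3⟩ := S.exists_bij
  obtain ⟨t, ht, ht'⟩ := qr_first (C := fun q => S.D q.2 ∧ ι q.2 = q.1)
    (((pl_md_prim S.prim).comp .snd).and (h1.comp (Primrec.snd.pair .fst))) h3
  dsimp only at ht
  obtain ⟨m, hm⟩ := S.ne
  have tinj : Function.Injective t := fun i j e => by rw [← (ht i).2, e, (ht j).2]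
  have fin : ∀ j, {d | S.D d ∧ ι d = j}.Finite := fun j => Set.Subsingleton.finite
    fun d hd e he => h2 d e hd.1 he.1 (hd.2.trans he.2.symm)
  refine ⟨fun i => ⟨frP t m ⁻¹' (u i).1, frP_pi ht' (u i).2 fun h0 => ?_⟩, fun i e => ?_, ?_⟩
  · exact ((S.fin (u i).2.isClosed ((hom i).resolve_left fun k => h0 (k hm))).preimage
      tinj.injOn).subset fun j hj => ⟨(ht j).1, hj⟩
  · ext b
    show frP t m b ∈ (u i).1 ↔ b = pt0
    rw [e, ← toP_eq (ι := ι), to_fr ht hm]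
  · rintro _ ⟨y, rfl⟩
    refine ⟨fun l => ⟨toP S ι ⁻¹' (y l).1, toP_pi h1 fin (y l).2⟩, ?_⟩
    refine Eq.trans ?_
      ((show Function.Surjective (toP S ι) from fun b => ⟨_, to_fr ht hm b⟩).range_comp _)
    refine congrArg range (funext fun a => vec_elim (fun i => ?_) fun _ => Iff.rfl)
    show _ ↔ frP t m (toP S ι a) ∈ (u i).1
    rcases S.cases a with ha | ⟨d, z, hd, rfl⟩
    · rw [toP_eq.2 ha, frP_pt]
      exact (hom i).elim (fun k => iff_of_true (k ha) (k hm))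
        fun k => iff_of_false (disjoint_left.1 k ha) (disjoint_left.1 k hm)
    · rw [toP, Site.psi_app hd, frP_app, h2 _ d (ht _).1 hd (ht _).2]

theorem tyB [Finite μ] (S : Site) (u : κ → EPi) :
    ∃ u' : κ → EPi, (∀ i, (u i).1 = {pt0} → (u' i).1 = S.M) ∧
      ∀ V ∈ ty μ u', ∀ w ∈ V, ∃ W ∈ ty μ u, w ∈ W ∧ W ⊆ V := by
  obtain ⟨ι, h1, h2, h3⟩ := S.exists_spread
  refine ⟨fun i => ⟨toP S ι ⁻¹' (u i).1, toP_pi h1 h2 (u i).2⟩,
    fun i e => Set.ext fun a => (Set.ext_iff.1 e _).trans toP_eq, ?_⟩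
  rintro _ ⟨y, rfl⟩ _ ⟨a, rfl⟩
  obtain ⟨m, d₀, hm, hd, ha⟩ : ∃ m d₀, m ∈ S.M ∧ S.D d₀ ∧ (a = m ∨ ∃ z, app d₀ z = a) := by
    rcases S.cases a with ha | ⟨d, z, hd, e⟩
    · obtain ⟨d, hd, -⟩ := h3 [] Site.nil_live 0 le_rfl
      exact ⟨a, d, ha, hd, .inl rfl⟩
    · exact S.ne.elim fun m hm => ⟨m, d, hm, hd, .inr ⟨z, e⟩⟩
  obtain ⟨n, hn⟩ := exists_cyl (U := ⋂ l : {l // m ∉ (y l).1}, (y l).1ᶜ) (x := m)
    (isOpen_iInter_of_finite fun l => (y l).2.isClosed.isOpen_compl) (mem_iInter.2 fun l => l.2)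
  have p0 : PrimrecPred fun q : ℕ × List Bool => q.1 = ι d₀ := Primrec.eq.comp .fst (.const _)
  obtain ⟨t, ht, ht'⟩ := qr_first (C := fun q => (S.D q.2 ∧ ι q.2 = q.1) ∧
      (q.1 = ι d₀ ∧ q.2 = d₀ ∨ ¬ q.1 = ι d₀ ∧ (q.1 < n ∨ res m n <:+ q.2)))
    ((((pl_md_prim S.prim).comp .snd).and (h1.comp (Primrec.snd.pair .fst))).and
      ((p0.and (Primrec.eq.comp .snd (.const _))).or (p0.not.and
        ((Primrec.nat_lt.comp .fst (.const _)).or
          (pl_above_prim.comp ((Primrec.const _).pair .snd)))))) fun j => by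
      by_cases e : j = ι d₀
      · exact ⟨d₀, ⟨hd, e.symm⟩, .inl ⟨e, rfl⟩⟩
      rcases lt_or_ge j n with k | k
      · obtain ⟨d, k1, -, k2⟩ := h3 [] Site.nil_live j (Nat.zero_le _)
        exact ⟨d, ⟨k1, k2⟩, .inr ⟨e, .inl k⟩⟩
      · obtain ⟨d, k1, k2, k3⟩ := h3 _ ⟨m, hm, self_mem_cyl m n⟩ j (by rwa [res_length])
        exact ⟨d, ⟨k1, k3⟩, .inr ⟨e, .inr k2⟩⟩
  dsimp only at ht
  have pi : ∀ l, IsPi01 (frP t m ⁻¹' (y l).1) := fun l => frP_pi ht' (y l).2 fun h0 => by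
    refine ((finite_lt_nat n).insert (ι d₀)).subset fun j ⟨x, k1, k2⟩ => ?_
    rcases (ht j).2 with k | ⟨-, k | k⟩
    exacts [.inl k.1, .inr k, absurd k1 (mem_iInter.1 (hn (pl_cyl_mono k k2)) ⟨l, h0⟩)]
  have key : ∀ b, vec (Sum.elim u fun l => ⟨_, pi l⟩) b = vec (Sum.elim
      (fun i => ⟨toP S ι ⁻¹' (u i).1, toP_pi h1 h2 (u i).2⟩) y) (frP t m b) := fun b =>
    vec_elim (fun i => by rw [mem_preimage, to_fr (fun j => (ht j).1) hm]) fun _ => Iff.rfl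
  refine ⟨_, ⟨fun l => ⟨_, pi l⟩, rfl⟩, ?_, ?_⟩
  · rcases ha with rfl | ⟨z, rfl⟩
    · exact ⟨pt0, by rw [key, frP_pt]⟩
    · exact ⟨app (wd (ι d₀)) z, by
        rw [key, frP_app, ((ht _).2.resolve_right fun k => k.1 rfl).2]⟩
  · rintro _ ⟨b, rfl⟩
    exact ⟨_, (key b).symm⟩

end Pool.Agent.Lib.MP_aad418_lc
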