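import Pool.Agent.Lib.MP_aad418_lc.Defs

/-! Lattice formulas with few quantifier blocks. -/

namespace Pool.Agent.Lib.MP_aad418_lc

/-- Terms of the language of bounded lattices. -/
inductive Tm (ι : Type) : Type
  | var : ι → Tm ι
  | bot : Tm ι
  | top : Tm ι
  | sup : Tm ι → Tm ι → Tm ι
  | inf : Tm ι → Tm ι → Tm ι

/-- The value of a term. -/
def Tm.ev {ι : Type} (v : ι → EPi) : Tm ι → Set (ℕ → Bool)
  | .var i => (v i).1
  | .bot => ∅
  | .top => Set.univ
  | .sup s t => s.ev v ∪ t.ev v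
  | .inf s t => s.ev v ∩ t.ev v

/-- Boolean combinations of the predicates with property `A`. -/
inductive BC {α : Type} (A : (α → Prop) → Prop) : (α → Prop) → Prop
  | base {p : α → Prop} : A p → BC A p
  | not {p : α → Prop} : BC A p → BC A fun a => ¬ p a
  | and {p q : α → Prop} : BC A p → BC A q → BC A fun a => p a ∧ q a

/-- Quantifier-free conditions: Boolean combinations of equations between terms. -/
def QF {ι : Type} : ((ι → EPi) → Prop) → Prop :=
  BC fun p => ∃ s t : Tm ι, p = fun v => s.ev v = t.ev v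

/-- Properties defined by a formula `∃ x ∀ y θ`. -/
def EA (R : EPi → Prop) : Prop :=
  ∃ (m n : ℕ) (θ : (Option (Fin m) ⊕ Fin n → EPi) → Prop), QF θ ∧ ∀ P : EPi, R P ↔
    ∃ x : Fin m → EPi, ∀ y : Fin n → EPi, θ (Sum.elim (fun o => o.elim P x) y)

/-- Properties defined by a formula `∀ x ∃ y ∀ z θ`. -/
def AEA (R : EPi → Prop) : Prop :=
  ∃ (l m n : ℕ) (θ : ((Option (Fin l) ⊕ Fin m) ⊕ Fin n → EPi) → Prop), QF θ ∧ ∀ P : EPi, R P ↔
    ∀ x : Fin l → EPi, ∃ y : Fin m → EPi, ∀ z : Fin n → EPi,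
      θ (Sum.elim (Sum.elim (fun o => o.elim P x) y) z)

/-- Minimal classes. -/
def Minimal (P : EPi) : Prop :=
  P.1.Infinite ∧ ∀ Q : EPi, Q.1 ⊆ P.1 → Q.1.Finite ∨ (P.1 \ Q.1).Finite

end Pool.Agent.Lib.MP_aad418_lc
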