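import Pool.Agent.Lib.MP_aad418_lc.Q.Pull

/-! A minimal thin class by a finite injury construction. -/

namespace Pool.Agent.Lib.MP_aad418_lc

open Set PiNat Encodable
open Nat.Partrec (Code)

/-- The string is seen to be dead for the code `e`. -/
def thD (e : ℕ) (ν : List Bool) : Prop := ∃ i ∈ List.range (ν.length + 1),
  (Code.evaln ν.length (Denumerable.ofNat Code e) (encode (ν.drop i))).isSome = true

theorem thD_prim : PrimrecRel fun ν e => thD e ν := by
  have hl : Primrec fun p : List Bool × ℕ => p.1.length := Primrec.list_length.comp .fst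
  have a : Ar 0 fun q : (List Bool × ℕ) × ℕ => (Code.evaln q.1.1.length
      (Denumerable.ofNat Code q.1.2) (encode (q.1.1.drop q.2))).isSome = true :=
    Primrec.eq.comp (Primrec.option_isSome.comp (Code.primrec_evaln.comp
      (((hl.comp .fst).pair ((Primrec.ofNat Code).comp (Primrec.snd.comp .fst))).pair
        (Primrec.encode.comp (Primrec.list_drop.comp .snd (Primrec.fst.comp .fst)))))) (.const true)
  exact a.bex (Primrec.list_range.comp (Primrec.succ.comp hl))

theorem thD_cons {e : ℕ} {ν : List Bool} (h : thD e ν) (b : Bool) : thD e (b :: ν) := by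
  obtain ⟨i, h1, h2⟩ := h
  obtain ⟨v, hv⟩ := Option.isSome_iff_exists.1 h2
  exact ⟨i + 1, by simpa using h1, Option.isSome_iff_exists.2
    ⟨v, Code.evaln_mono (Nat.le_succ _) hv⟩⟩

theorem thD_code {Q : Set X} (hQ : IsPi01 Q) : ∃ e, ∀ x, x ∉ Q ↔ ∃ k, thD e (res x k) := by
  obtain ⟨B, h1, -, h3⟩ := (hQ.cl (α := Unit)).nf
  obtain ⟨c, hc⟩ := Code.exists_code.1
    (h1.comp ((Primrec.const ()).pair Primrec.id)).not.computablePred.to_re
  have key : ∀ s : List Bool, (∃ k, (Code.evaln k c (encode s)).isSome = true) ↔ ¬ B ((), s) :=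
    fun s => by
      have : (c.eval (encode s)).Dom ↔ ¬ B ((), s) := by simp [hc, Part.assert]
      simp only [← this, Part.dom_iff_mem, Code.evaln_complete, Option.isSome_iff_exists,
        Option.mem_def]
      exact exists_comm
  refine ⟨encode c, fun x => ?_⟩
  simp only [h3 (), not_forall, thD, Denumerable.ofNat_encode, res_length, res_drop]
  constructor
  · rintro ⟨k, hk⟩
    obtain ⟨N, hN⟩ := (key _).2 hk
    obtain ⟨v, hv⟩ := Option.isSome_iff_exists.1 hN
    refine ⟨k + N, N, by simp, Option.isSome_iff_exists.2 ⟨v, ?_⟩⟩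
    rw [Nat.add_sub_cancel]
    exact Code.evaln_mono (Nat.le_add_left _ _) hv
  · rintro ⟨k, i, -, h⟩
    exact ⟨_, (key _).1 ⟨_, h⟩⟩

/-- Requirement `e` asks for attention. -/
def thN (l : List (List Bool)) (e : ℕ) : Prop :=
  (∃ ν ∈ l.drop e, thD e ν) ∧ ¬ ∀ ν ∈ l.drop e, thD e ν

open Classical in
/-- The first requirement that asks for attention. -/
noncomputable def thA (l : List (List Bool)) : ℕ :=
  (List.range l.length).findIdx fun e => decide (thN l e)

open Classical in
/-- The action. -/
noncomputable def thC (l : List (List Bool)) : List (List Bool) :=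
  l.take (thA l) ++ (l.drop (thA l)).filter fun ν => decide (thD (thA l) ν)

/-- One more level. -/
def thE (c : List (List Bool)) : List (List Bool) :=
  c.map (List.cons false) ++ (c.drop (c.length - 1)).map (List.cons true)

/-- The strings that are alive at stage `s`. -/
noncomputable def thL (s : ℕ) : List (List Bool) := (fun l => thE (thC l))^[s] [[]]

theorem thL_succ (s : ℕ) : thL (s + 1) = thE (thC (thL s)) := Function.iterate_succ_apply' _ _ _

theorem thL_prim : Primrec thL := by
  classical
  have hd : Primrec fun p : List (List Bool) × ℕ => p.1.drop p.2 :=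
    Primrec.list_drop.comp .snd .fst
  have hN : PrimrecRel thN :=
    (thD_prim.exists_mem_list.comp hd .snd).and (thD_prim.forall_mem_list.comp hd .snd).not
  have hA : Primrec thA :=
    Primrec.list_findIdx (Primrec.list_range.comp Primrec.list_length) hN.decide
  have hC : Primrec thC := Primrec.list_append.comp (Primrec.list_take.comp hA .id)
    (thD_prim.listFilter.comp (Primrec.list_drop.comp hA .id) hA)
  have hm : ∀ b, Primrec fun c : List (List Bool) => c.map (List.cons b) := fun b =>
    Primrec.list_map .id (Primrec.list_cons.comp (.const b) .snd).to₂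
  have hE : Primrec thE := Primrec.list_append.comp (hm false) ((hm true).comp
    (Primrec.list_drop.comp (Primrec.nat_sub.comp Primrec.list_length (.const 1)) .id))
  exact Primrec.nat_iterate (h := fun _ l => thE (thC l)) .id (.const _)
    ((hE.comp hC).comp .snd).to₂

section

variable {l c : List (List Bool)} {e : ℕ} {ν : List Bool}

theorem thA_le : thA l ≤ l.length := List.findIdx_le_length.trans_eq List.length_range

theorem thA_need (h : thA l < l.length) : thN l (thA l) := by
  classical
  have := List.findIdx_getElem (w := (show thA l < (List.range l.length).length by simpa using h))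
  rw [List.getElem_range] at this
  exact of_decide_eq_true this

theorem thA_min (h : e < thA l) : ¬ thN l e := by
  classical
  have := List.not_of_lt_findIdx h
  rw [List.getElem_range] at this
  exact of_decide_eq_false this

theorem thC_sub : (thC l).Sublist l := by
  conv_rhs => rw [← List.take_append_drop (thA l) l]
  exact List.filter_sublist.append_left _

theorem thC_len (h : e ≤ thA l) (h' : e < l.length) : e < (thC l).length := by
  classical
  rw [thC, List.length_append, List.length_take_of_le thA_le]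
  rcases thA_le.eq_or_lt (a := thA l) with k | k
  · omega
  · obtain ⟨ν, k1, k2⟩ := (thA_need k).1
    exact Nat.lt_add_of_pos_right (List.length_pos_of_mem
      (List.mem_filter.2 ⟨k1, decide_eq_true k2⟩)) |> h.trans_lt

theorem thC_take (h : e ≤ thA l) : (thC l).take e = l.take e := by
  rw [thC, List.take_append_of_le_length (by rwa [List.length_take_of_le thA_le]),
    List.take_take, min_eq_left h]

theorem thC_drop (h : e ≤ thA l) : (thC l).drop e ⊆ l.drop e := by
  have k : e ≤ (l.take (thA l)).length := by rwa [List.length_take_of_le thA_le]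
  conv_rhs => rw [← List.take_append_drop (thA l) l]
  rw [thC, List.drop_append_of_le_length k, List.drop_append_of_le_length k]
  exact (List.filter_sublist.append_left _).subset

theorem thC_dead (h : ν ∈ (thC l).drop (thA l)) : thD (thA l) ν := by
  classical
  rw [thC, List.drop_left' (List.length_take_of_le thA_le)] at h
  exact of_decide_eq_true (List.mem_filter.1 h).2

theorem thE_len (h : e < c.length) : e + 1 < (thE c).length := by
  simp only [thE, List.length_append, List.length_map, List.length_drop]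
  omega

theorem thE_take (h : e < c.length) : (thE c).take e = (c.take e).map (List.cons false) := by
  rw [thE, List.take_append_of_le_length (by simpa using h.le), List.map_take]

theorem thE_drop (h : e < c.length) (hν : ν ∈ (thE c).drop e) :
    ∃ b, ∃ ρ ∈ c.drop e, ν = b :: ρ := by
  rw [thE, List.drop_append_of_le_length (by simpa using h.le), ← List.map_drop] at hν
  rcases List.mem_append.1 hν with k | k <;> obtain ⟨ρ, k1, rfl⟩ := List.mem_map.1 k
  exacts [⟨_, ρ, k1, rfl⟩, ⟨_, ρ, List.drop_subset_drop_left _ (by omega) k1, rfl⟩]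

theorem thE_nodup (h : c.Nodup) : (thE c).Nodup := by
  refine (h.map (List.cons_injective)).append
    ((h.sublist (List.drop_sublist _ _)).map List.cons_injective) fun ν h1 h2 => ?_
  obtain ⟨_, -, rfl⟩ := List.mem_map.1 h1
  obtain ⟨_, -, k⟩ := List.mem_map.1 h2
  exact Bool.noConfusion (List.cons.inj k).1

end

theorem thL_nodup (s : ℕ) : (thL s).Nodup := by
  induction s with
  | zero => exact List.nodup_singleton _
  | succ s ih => exact thL_succ s ▸ thE_nodup (ih.sublist thC_sub)

theorem thL_pos (s : ℕ) : 0 < (thL s).length := by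
  induction s with
  | zero => exact Nat.one_pos
  | succ s ih => exact thL_succ s ▸ (thE_len (thC_len (Nat.zero_le _) ih)).trans' Nat.one_pos

theorem thL_tail {s : ℕ} {ν : List Bool} (h : ν ∈ thL (s + 1)) : ∃ b, ∃ ρ ∈ thL s, ν = b :: ρ := by
  obtain ⟨b, ρ, h1, h2⟩ := thE_drop (thC_len (Nat.zero_le _) (thL_pos s)) (thL_succ s ▸ h)
  exact ⟨b, ρ, thC_sub.subset h1, h2⟩

theorem thL_len {s : ℕ} {ν : List Bool} (h : ν ∈ thL s) : ν.length = s := by
  induction s generalizing ν with
  | zero => rw [List.mem_singleton.1 h]; rfl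
  | succ s ih =>
    obtain ⟨b, ρ, h1, rfl⟩ := thL_tail h
    rw [List.length_cons, ih h1]

theorem th_stab (e : ℕ) : ∃ s₀, ∀ s, s₀ ≤ s → e ≤ thA (thL s) ∧ e < (thL s).length := by
  induction e with
  | zero => exact ⟨0, fun s _ => ⟨Nat.zero_le _, thL_pos s⟩⟩
  | succ e ih =>
    obtain ⟨s₀, h⟩ := ih
    obtain ⟨s₁, h1, h2⟩ : ∃ s₁, s₀ ≤ s₁ ∧ ∀ s, s₁ < s → ¬ thN (thL s) e := by
      by_cases k : ∃ s, s₀ ≤ s ∧ thN (thL s) e
      · obtain ⟨s₁, k1, k2⟩ := k
        have k3 : thA (thL s₁) = e := le_antisymm (not_lt.1 fun k => thA_min k k2) (h s₁ k1).1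
        have k4 : ∀ s, s₁ ≤ s → (∀ ν ∈ (thC (thL s)).drop e, thD e ν) →
            ∀ ν ∈ (thL (s + 1)).drop e, thD e ν := fun s hs k ν hν => by
          obtain ⟨b, ρ, k5, rfl⟩ := thE_drop (thC_len (h s (by omega)).1 (h s (by omega)).2)
            (thL_succ s ▸ hν)
          exact thD_cons (k ρ k5) b
        refine ⟨s₁, k1, fun s hs k => k.2 ?_⟩
        clear k
        induction s, hs using Nat.le_induction with
        | base => exact k4 s₁ le_rfl fun ν hν => k3 ▸ thC_dead (k3.symm ▸ hν)
        | succ s hs ih => exact k4 s (by omega) fun ν hν => ih ν (thC_drop (h s (by omega)).1 hν)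
      · exact ⟨s₀, le_rfl, fun s hs k' => k ⟨s, hs.le, k'⟩⟩
    refine ⟨s₁ + 1, fun s hs => ⟨(h s (by omega)).1.lt_of_ne fun k => h2 s hs ?_, ?_⟩⟩
    · exact k ▸ thA_need (k ▸ (h s (by omega)).2)
    · obtain ⟨s, rfl⟩ := Nat.exists_eq_add_of_lt hs
      exact thL_succ _ ▸ thE_len (thC_len (h _ (by omega)).1 (h _ (by omega)).2)

/-- The class. -/
def thM : Set X := {x | ∀ s, res x s ∈ thL s}

theorem thM_pi : IsPi01 thM := by
  refine Cl.isPi01 (α := Unit) (C := fun _ => thM) ⟨fun p => ∃ b ∈ thL p.2.length, b = p.2,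
    Ar.prim (Primrec.eq.exists_mem_list.comp (thL_prim.comp (Primrec.list_length.comp .snd)) .snd),
    fun _ x => ?_⟩ ()
  simp only [thM, mem_ofPred_eq, res_length, exists_eq_right]

section

variable {e s₀ : ℕ} (h : ∀ s, s₀ ≤ s → e ≤ thA (thL s) ∧ e < (thL s).length)
include h

theorem th_take {s : ℕ} (hs : s₀ ≤ s) :
    (thL (s + 1)).take e = ((thL s).take e).map (List.cons false) := by
  rw [thL_succ, thE_take (thC_len (h s hs).1 (h s hs).2), thC_take (h s hs).1]

theorem th_step {x : X} (hx : x ∈ thM) {s : ℕ} (hs : s₀ ≤ s) :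
    res x (s + 1) ∈ (thL (s + 1)).take e ↔ res x s ∈ (thL s).take e := by
  constructor
  · rw [th_take h hs, res_succ]
    intro k
    obtain ⟨ρ, k1, k2⟩ := List.mem_map.1 k
    exact (List.cons.inj k2).2 ▸ k1
  · intro k
    refine (List.mem_append.1 (by rw [List.take_append_drop]; exact hx _)).resolve_right
      fun k1 => ?_
    obtain ⟨b, ρ, k2, k3⟩ := thE_drop (thC_len (h s hs).1 (h s hs).2) (thL_succ s ▸ k1)
    rw [res_succ] at k3
    exact List.disjoint_take_drop (thL_nodup s) le_rfl k
      ((List.cons.inj k3).2 ▸ thC_drop (h s hs).1 k2)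

theorem th_inv {x : X} (hx : x ∈ thM) {s : ℕ} (hs : s₀ ≤ s) :
    res x s ∈ (thL s).take e ↔ res x s₀ ∈ (thL s₀).take e := by
  induction s, hs using Nat.le_induction with
  | base => rfl
  | succ s hs ih => exact (th_step h hx hs).trans ih

theorem th_iso {x y : X} (hx : x ∈ thM) (hy : y ∈ thM) (k : res x s₀ ∈ (thL s₀).take e)
    (e₀ : res x s₀ = res y s₀) : x = y := by
  have z : ∀ z ∈ thM, res z s₀ ∈ (thL s₀).take e → ∀ s, s₀ ≤ s → z s = false := fun z hz k s hs => by
    have := (th_inv h hz (hs.trans (Nat.le_succ s))).2 k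
    rw [th_take h hs, res_succ] at this
    obtain ⟨ρ, -, k2⟩ := List.mem_map.1 this
    exact (List.cons.inj k2).1.symm
  funext i
  rcases lt_or_ge i s₀ with c | c
  · exact res_eq_res.1 e₀ c
  · rw [z x hx k i c, z y hy (e₀ ▸ k) i c]

theorem th_pt {q : List Bool} (k : q ∈ (thL s₀).take e) : q ∈ (res · s₀) '' thM := by
  have l := thL_len (List.mem_of_mem_take k)
  have k0 : res (app q pt0) s₀ = q := l ▸ qp_mem_cyl q pt0
  have up : ∀ s, s₀ ≤ s → res (app q pt0) s ∈ (thL s).take e := fun s hs => by
    induction s, hs using Nat.le_induction with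
    | base => rwa [k0]
    | succ s hs ih =>
      rw [th_take h hs, res_succ, show app q pt0 s = false from if_neg (by omega)]
      exact List.mem_map_of_mem ih
  refine ⟨_, fun s => ?_, k0⟩
  rcases le_total s s₀ with c | c
  · induction c using Nat.decreasingInduction with
    | self => exact List.mem_of_mem_take (up _ le_rfl)
    | of_succ s _ ih =>
      obtain ⟨b, ρ, k1, k2⟩ := thL_tail ih
      rw [res_succ] at k2
      exact (List.cons.inj k2).2 ▸ k1
  · exact List.mem_of_mem_take (up s c)

end

theorem thM_inf : thM.Infinite := fun hf => by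
  obtain ⟨s₀, h⟩ := th_stab (thM.ncard + 1)
  have k := (Set.ncard_le_ncard (s := ↑((thL s₀).take (thM.ncard + 1)).toFinset)
    (fun q hq => th_pt h (List.mem_toFinset.1 hq)) (hf.image _)).trans (Set.ncard_image_le hf)
  rw [Set.ncard_coe_finset, List.toFinset_card_of_nodup
    ((thL_nodup s₀).sublist (List.take_sublist _ _)), List.length_take_of_le (h s₀ le_rfl).2.le] at k
  omega

theorem thM_thin {Q : Set X} (hQ : IsPi01 Q) : ((thM ∩ Q).Finite ∨ (thM \ Q).Finite) ∧
    ∃ n, ∀ x ∈ thM, ∀ y ∈ thM, res x n = res y n → x ∈ Q → y ∈ Q := by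
  obtain ⟨e, he⟩ := thD_code hQ
  obtain ⟨s₀, h'⟩ := th_stab (e + 1)
  have h : ∀ s, s₀ ≤ s → e ≤ thA (thL s) ∧ e < (thL s).length := fun s hs =>
    ⟨(h' s hs).1.trans' (Nat.le_succ e), (h' s hs).2.trans' (Nat.lt_succ_self e)⟩
  let T := {x ∈ thM | res x s₀ ∈ (thL s₀).take e}
  have fT : T.Finite := Finite.of_finite_image (f := (res · s₀))
    ((List.finite_toSet _).subset (by rintro _ ⟨x, hx, rfl⟩; exact hx.2))
    fun x hx y hy => th_iso h hx.1 hy.1 hx.2
  have dr : ∀ x ∈ thM \ T, ∀ s, s₀ ≤ s → res x s ∈ (thL s).drop e := fun x hx s hs =>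
    (List.mem_append.1 ((List.take_append_drop e _).symm ▸ hx.1 s)).resolve_left
      fun k => hx.2 ⟨hx.1, (th_inv h hx.1 hs).1 k⟩
  have key : ∀ x ∈ thM \ T, ∀ y ∈ thM \ T, x ∈ Q → y ∈ Q := fun x hx y hy k => by
    by_contra k1
    obtain ⟨s, k2⟩ := (he y).1 k1
    have k3 : thD e (res y (s + s₀)) := by
      clear h h' fT dr hx hy
      induction s₀ with
      | zero => exact k2
      | succ n ih => exact thD_cons ih _
    exact (he x).2 ⟨_, not_not.1 (not_and.1 (thA_min (h' _ (Nat.le_add_left _ s)).1)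
      ⟨_, dr y hy _ (Nat.le_add_left _ s), k3⟩) _ (dr x hx _ (Nat.le_add_left _ s))⟩ k
  refine ⟨or_iff_not_imp_left.2 fun k => fT.subset fun y hy => by_contra fun k1 => ?_,
    s₀, fun x hx y hy e₀ k => ?_⟩
  · obtain ⟨x, k2, k3⟩ := not_subset.1 (mt fT.subset k)
    exact hy.2 (key x ⟨k2.1, k3⟩ y ⟨hy.1, k1⟩ k2.2)
  · by_cases k1 : x ∈ T
    · exact th_iso h hx hy k1.2 e₀ ▸ k
    · exact key x ⟨hx, k1⟩ y ⟨hy, fun k2 => k1 ⟨hx, e₀ ▸ k2.2⟩⟩ k

theorem thM_nd (s : List Bool) : ¬ cyl s ⊆ thM := fun h => by
  have inf : ∀ b, (cyl (b :: s)).Infinite := fun b =>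
    range_app _ ▸ infinite_range_of_injective (app_inj _)
  have sub : ∀ b, cyl (b :: s) ⊆ thM := fun b => (pl_cyl_mono (List.suffix_cons b s)).trans h
  rcases (thM_thin (clA_cyl (false :: s))).1 with k | k
  · exact inf false (k.subset (subset_inter (sub _) Subset.rfl))
  · exact inf true (k.subset fun x hx => ⟨sub _ hx, fun k1 =>
      Bool.noConfusion (List.cons.inj (Eq.trans (Eq.symm hx) k1)).1⟩)

end Pool.Agent.Lib.MP_aad418_lc
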