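import Pool.Agent.Lib.MP_aad418_lc.Q.Types
import Pool.Agent.Lib.MP_aad418_lc.Q.Thin

/-! Two quantifier blocks do not separate finite classes from minimal classes. -/

namespace Pool.Agent.Lib.MP_aad418_lc

open Set PiNat Pointwise

/-- The minimal thin class. -/
def mE : EPi := ⟨thM, thM_pi⟩

theorem low_types (α μ : Type) [Finite α] [Finite μ] : ∃ L, ∀ k, L ≤ k →
    ∀ Θ : Set (Pt (Option α) μ), (∃ τ ∈ TT α μ (ad (jnIso (mE, eE)) k), τ ⊆ Θ) ↔
      ∃ τ ∈ TT α μ (ad eE k), τ ⊆ Θ := by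
  have : Finite (Pt (Option α) μ) := inferInstanceAs (Finite (Set (Set (Option α ⊕ μ))))
  obtain ⟨N, h⟩ : ∃ N, ∀ A : Set (Pt (Option α) μ), (N + 1) • A = N • A :=
    ⟨_, fun A => mon_stab (N := 1) (fun a => by
      rw [succ_nsmul, one_nsmul]; exact union_self a.down) A (Nat.le_succ _) le_rfl⟩
  refine ⟨N * Nat.card (Set (Pt (Option α) μ)) + 1, fun k hk Θ => ?_⟩
  rw [TT_ad, TT_ad, TT_jn]
  constructor
  · rintro ⟨_, ⟨_, ⟨_, ⟨u, hu, rfl⟩, τ, h1, rfl⟩, σ, h2, rfl⟩, h3⟩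
    choose n hn using fun i => (thM_thin (u i).2).2
    obtain ⟨B, hB⟩ := (finite_range n).bddAbove
    obtain ⟨i, j, ρ, h4, h5⟩ := tp_good (μ := μ) B u (hu ▸ thM_nd) fun i x hx y hy e =>
      hn i x (by rwa [hu] at hx) y (by rwa [hu] at hy) (pl_res_eq (hB ⟨i, rfl⟩) e)
    refine ⟨ρ + τ + σ, ?_, (add_subset_add (add_subset_add h5 Subset.rfl) Subset.rfl).trans h3⟩
    rw [← TT_e i, mon_stab h _ hk (hk.trans (Nat.le_add_left k j)), add_nsmul, ← add_assoc,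
      add_assoc (TT α μ eE), add_comm (TT α μ eE)]
    exact add_mem_add (add_mem_add h4 h1) h2
  · rintro ⟨_, ⟨τ, h1, σ, h2, rfl⟩, h3⟩
    obtain ⟨τ', h4, h5⟩ := mon_abs h hk h2
    obtain ⟨ρ, h6, h7⟩ := tp_abs (M := mE) thM_inf.nonempty thM_nd h4 h5
    refine ⟨_, add_mem_add (add_mem_add h6 h1) h2, Subset.trans ?_ h3⟩
    rw [add_comm ρ, add_assoc]
    exact add_subset_add Subset.rfl h7

theorem EA.types {R : EPi → Prop} (h : EA R) : ∃ (m n : ℕ) (Θ : Set (Pt (Option (Fin m)) (Fin n))),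
    ∀ P, R P ↔ ∃ τ ∈ TT (Fin m) (Fin n) P, τ ⊆ Θ := by
  obtain ⟨m, n, θ, h1, h2⟩ := h
  refine ⟨m, n, {V | ∃ v, pat v = V ∧ θ v}, fun P => (h2 P).trans ⟨?_, ?_⟩⟩
  · rintro ⟨x, hx⟩
    exact ⟨_, ⟨fun o => o.elim P x, rfl, rfl⟩, by rintro _ ⟨y, rfl⟩; exact ⟨_, rfl, hx y⟩⟩
  · rintro ⟨_, ⟨u, rfl, rfl⟩, hu⟩
    refine ⟨fun i => u (some i), fun y => ?_⟩
    obtain ⟨v, k1, k2⟩ := hu ⟨y, rfl⟩
    rw [show (fun o : Option (Fin m) => o.elim (u none) fun i => u (some i)) = u from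
      funext fun o => Option.rec rfl (fun _ => rfl) o]
    exact (h1.pat k1).1 k2

theorem low_bc {R : EPi → Prop} (h : BC EA R) :
    ∃ L, ∀ k, L ≤ k → (R (ad eE k) ↔ R (ad (jnIso (mE, eE)) k)) := by
  induction h with
  | base h =>
    obtain ⟨m, n, Θ, h⟩ := h.types
    obtain ⟨L, hL⟩ := low_types (Fin m) (Fin n)
    exact ⟨L, fun k hk => by rw [h, h, hL k hk]⟩
  | not _ h => exact h.imp fun L h k hk => not_congr (h k hk)
  | and _ _ h1 h2 =>
    obtain ⟨L, h1⟩ := h1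
    obtain ⟨L', h2⟩ := h2
    exact ⟨max L L', fun k hk => and_congr (h1 k (le_of_max_le_left hk))
      (h2 k (le_of_max_le_right hk))⟩

theorem Minimal.jn {P Q : EPi} (h : Minimal P) (hQ : Q.1.Finite) : Minimal (jnIso (P, Q)) := by
  refine ⟨(h.1.image (app_inj [false]).injOn).mono subset_union_left, fun R hR => ?_⟩
  have key : ∀ A : Set X, A ⊆ Pool.Agent.Lib.MP_aad418_lc.jn P.1 Q.1 →
      (app [false] ⁻¹' A).Finite → A.Finite := fun A hA k =>
    ((k.image (app [false])).union (hQ.image (app [true]))).subset fun x hx =>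
      (hA hx).imp (fun ⟨y, _, e⟩ => ⟨y, by rwa [mem_preimage, e], e⟩) id
  exact (h.2 ⟨_, jn_pre false R.2⟩ fun y hy => jn_false.1 (hR hy)).imp (key _ hR)
    fun k => key _ sdiff_subset (k.subset fun y hy => ⟨jn_false.1 hy.1, hy.2⟩)

theorem low_main {R : EPi → Prop} (h : BC EA R) :
    ∃ F M : EPi, F.1.Finite ∧ Minimal M ∧ (R F ↔ R M) := by
  obtain ⟨L, hL⟩ := low_bc h
  refine ⟨_, _, ?_, ?_, hL L le_rfl⟩ <;> clear hL <;> induction L with
  | zero => ?_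
  | succ k ih => ?_
  · exact finite_empty
  · exact (ih.image _).union ((finite_singleton _).image _)
  · exact Minimal.jn ⟨thM_inf, fun Q hQ => (thM_thin Q.2).1.imp_left
      fun k => k.subset (subset_inter hQ Subset.rfl)⟩ finite_empty
  · exact ih.jn (finite_singleton _)

end Pool.Agent.Lib.MP_aad418_lc
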