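import Pool.Agent.Lib.MP_aad418_lc.FV

/-! Long sums in a finite aperiodic commutative monoid. -/

namespace Pool.Agent.Lib.MP_aad418_lc

open Pointwise

variable {M : Type} [AddCommMonoid M] [Finite M] {N k l : ℕ}

omit [Finite M] in
theorem mon_min (h : ∀ a : M, (N + 1) • a = N • a) (a : M) (n : ℕ) : n • a = min N n • a := by
  rcases le_total N n with c | c
  · rw [min_eq_left c]
    induction n, c using Nat.le_induction with
    | base => rfl
    | succ n _ ih => rw [succ_nsmul, ih, ← succ_nsmul, h]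
  · rw [min_eq_right c]

omit [Finite M] in
theorem mon_sum [Fintype M] (f : Fin k → M) : ∑ i, f i = ∑ t, (f ⁻¹' {t}).ncard • t := by
  classical
  rw [← Finset.sum_fiberwise' _ f fun t => t]
  refine Finset.sum_congr rfl fun t _ => ?_
  rw [Finset.sum_const, Set.ncard_eq_toFinset_card']
  congr 2
  ext
  simp

theorem mon_stab (h : ∀ a : M, (N + 1) • a = N • a) (A : Set M) (hk : N * Nat.card M + 1 ≤ k)
    (hl : N * Nat.card M + 1 ≤ l) : k • A = l • A := by
  have key : ∀ {k l : ℕ}, N * Nat.card M + 1 ≤ k → N * Nat.card M + 1 ≤ l → k • A ⊆ l • A :=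
    fun {k l} hk hl σ hσ => by
      have := Fintype.ofFinite M
      obtain ⟨f, h1, rfl⟩ := Set.mem_nsmul_iff_sum.1 hσ
      obtain ⟨g, h2, h3⟩ := FV_core (N := N) (J := Fin l) f
        (by rw [Nat.card_fin, Nat.card_fin]; omega)
      refine Set.mem_nsmul_iff_sum.2 ⟨g, fun j => (h2 j).elim fun i e => e ▸ h1 i, ?_⟩
      rw [mon_sum f, mon_sum g]
      exact Finset.sum_congr rfl fun t _ => by rw [mon_min h, ← h3 t, ← mon_min h]
  exact (key hk hl).antisymm (key hl hk)

theorem mon_abs (h : ∀ a : M, (N + 1) • a = N • a) {A : Set M} (hk : N * Nat.card M + 1 ≤ k)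
    {σ : M} (hσ : σ ∈ k • A) : ∃ τ ∈ A, σ + τ = σ := by
  classical
  have := Fintype.ofFinite M
  obtain ⟨f, h1, rfl⟩ := Set.mem_nsmul_iff_sum.1 hσ
  obtain ⟨t, h₀⟩ := Fintype.exists_lt_card_fiber_of_mul_lt_card f (n := N)
    (by rw [← Nat.card_eq_fintype_card, Fintype.card_fin, mul_comm]; omega)
  replace h₀ : N < (f ⁻¹' {t}).ncard := by
    rw [Set.ncard_eq_toFinset_card']
    convert h₀ using 2
    ext
    simp
  obtain ⟨i, hi⟩ := Set.nonempty_of_ncard_ne_zero (s := f ⁻¹' {t}) (by omega)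
  refine ⟨t, (show f i = t from hi) ▸ h1 i, ?_⟩
  rw [mon_sum f, ← Finset.add_sum_erase _ _ (Finset.mem_univ t), add_right_comm, ← succ_nsmul,
    mon_min h, mon_min h t (f ⁻¹' {t}).ncard, min_eq_left h₀.le, min_eq_left (by omega)]

end Pool.Agent.Lib.MP_aad418_lc
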