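import Pool.Agent.Lib.MP_aad418_lc.Place
import Pool.Agent.Lib.MP_aad418_lc.Join

/-! Maps that move the cones outside a nowhere dense class. -/

namespace Pool.Agent.Lib.MP_aad418_lc

open Set PiNat

/-- A nonempty nowhere dense class with a primitive recursive tree. -/
structure Site where
  M : Set X
  B : List Bool → Prop
  prim : PrimrecPred B
  mono : ∀ s t, s <:+ t → B t → B s
  mem : ∀ x, x ∈ M ↔ ∀ k, B (res x k)
  ne : M.Nonempty
  nd : ∀ s, ¬ cyl s ⊆ M

theorem exists_site {M : Set X} (h : IsPi01 M) (hne : M.Nonempty) (hnd : ∀ s, ¬ cyl s ⊆ M) :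
    ∃ S : Site, S.M = M := by
  obtain ⟨B, h1, h2, h3⟩ := (h.cl (α := Unit)).nf
  exact ⟨⟨M, fun s => B ((), s), h1.comp ((Primrec.const ()).pair Primrec.id),
    fun s t ⟨u, e⟩ hb => h2 () u s (e ▸ hb), h3 (), hne, hnd⟩, rfl⟩

theorem qp_mem_cyl (d : List Bool) (y : X) : app d y ∈ cyl d := range_app d ▸ ⟨y, rfl⟩

theorem qp_comp {x : X} {s t : List Bool} (hs : x ∈ cyl s) (ht : x ∈ cyl t) :
    s <:+ t ∨ t <:+ s := by
  have h1 : res x s.length = s := hs
  have h2 : res x t.length = t := ht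
  rcases le_total s.length t.length with c | c
  · exact .inl (h1 ▸ h2 ▸ pl_res_le x c)
  · exact .inr (h1 ▸ h2 ▸ pl_res_le x c)

namespace Site

variable (S : Site) {d e : List Bool} {x y : X}

/-- The minimal strings outside the tree. -/
abbrev D (d : List Bool) : Prop := plMd S.B d

theorem cases (x : X) : x ∈ S.M ∨ ∃ d y, S.D d ∧ app d y = x := by
  refine or_iff_not_imp_left.2 fun h => ?_
  obtain ⟨m, hm⟩ := S.ne
  obtain ⟨k, hk⟩ := pl_exists_md ((S.mem m).1 hm 0) (mt (S.mem x).2 h)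
  obtain ⟨y, hy⟩ := pl_exists_app x k
  exact ⟨_, y, hk, hy⟩

variable {S}

theorem not_mem (hd : S.D d) (hx : x ∈ cyl d) : x ∉ S.M := fun h =>
  hd.1 ((show res x d.length = d from hx) ▸ (S.mem x).1 h d.length)

theorem uniq (hd : S.D d) (he : S.D e) (h1 : x ∈ cyl d) (h2 : x ∈ cyl e) : d = e :=
  (qp_comp h1 h2).elim (pl_md_eq S.mono hd he) fun h => (pl_md_eq S.mono he hd h).symm

theorem isClosed : IsClosed S.M := by
  have e : S.M = ⋂ k, ((fun x : X => res x k) ⁻¹' {s | ¬ S.B s})ᶜ := by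
    ext x
    simp [S.mem]
  rw [e]
  exact isClosed_iInter fun k => (res_lc k _).isClosed_compl

/-- A closed set that misses the class meets finitely many cones. -/
theorem fin {Y : Set X} (hY : IsClosed Y) (h : Disjoint S.M Y) :
    {d | S.D d ∧ (Y ∩ cyl d).Nonempty}.Finite := by
  obtain ⟨t, ht⟩ := hY.isCompact.elim_finite_subcover (fun d : {d // S.D d} => cyl d.1)
    (fun d => (isClopen_cyl _).isOpen) fun x hx => by
      obtain ⟨d, y, hd, rfl⟩ := (S.cases x).resolve_left fun k => disjoint_left.1 h k hx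
      exact mem_iUnion.2 ⟨⟨d, hd⟩, qp_mem_cyl d y⟩
  refine (t.finite_toSet.image Subtype.val).subset fun d ⟨hd, x, h1, h2⟩ => ?_
  obtain ⟨e, he, h3⟩ := mem_iUnion₂.1 (ht h1)
  exact ⟨e, he, uniq e.2 hd h3 h2⟩

/-- Above a live string there are infinitely many minimal dead strings. -/
theorem inf {σ : List Bool} (h : (S.M ∩ cyl σ).Nonempty) : {d | S.D d ∧ σ <:+ d}.Infinite := by
  obtain ⟨m, hm, hσ⟩ := h
  intro hf
  obtain ⟨N, hN⟩ := (hf.image List.length).bddAbove
  obtain ⟨x, h1, h2⟩ := not_subset.1 (S.nd (res m (N + σ.length)))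
  obtain ⟨d, y, hd, rfl⟩ := (S.cases x).resolve_left h2
  have k : res m (N + σ.length) <:+ d := (qp_comp h1 (qp_mem_cyl d y)).resolve_right fun k =>
    not_mem hd (pl_cyl_mono k (self_mem_cyl m _)) hm
  have k1 := pl_res_le m (Nat.le_add_left σ.length N)
  rw [show res m σ.length = σ from hσ] at k1
  have k2 : σ <:+ d := k1.trans k
  have k3 := hN ⟨d, ⟨hd, k2⟩, rfl⟩
  have k4 := k.length_le
  rw [res_length] at k4
  have k5 := k.eq_of_length (by rw [res_length]; omega)
  exact not_mem hd (k5 ▸ self_mem_cyl m _) hm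

open Classical in
/-- The map that sends the class to `m` and the cone `d` to the cone `h d`. -/
noncomputable def psi (S : Site) (h : List Bool → List Bool) (m : X) (x : X) : X :=
  if H : ∃ q : List Bool × X, S.D q.1 ∧ app q.1 q.2 = x then app (h H.choose.1) H.choose.2 else m

theorem psi_mem {h : List Bool → List Bool} {m : X} (hx : x ∈ S.M) : S.psi h m x = m :=
  dif_neg fun ⟨_, h1, h2⟩ => not_mem h1 (h2 ▸ qp_mem_cyl _ _) hx

theorem psi_app {h : List Bool → List Bool} {m : X} (hd : S.D d) (y : X) :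
    S.psi h m (app d y) = app (h d) y := by
  have H : ∃ q : List Bool × X, S.D q.1 ∧ app q.1 q.2 = app d y := ⟨(d, y), hd, rfl⟩
  obtain ⟨h1, h2⟩ := H.choose_spec
  rw [psi, dif_pos H]
  generalize H.choose = q at h1 h2
  obtain ⟨e, z⟩ := q
  obtain rfl : e = d := uniq h1 hd (h2 ▸ qp_mem_cyl e z) (qp_mem_cyl d y)
  rw [show z = y from app_inj _ h2]

theorem pull {h : List Bool → List Bool} {m : X} {Rel : List Bool × List Bool → Prop}
    (hR : PrimrecPred Rel) (hh : ∀ d e, Rel (d, e) ↔ h d = e) {Y : Set X} (hY : IsPi01 Y)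
    (hf : m ∉ Y → {d | S.D d ∧ (Y ∩ cyl (h d)).Nonempty}.Finite) : IsPi01 (S.psi h m ⁻¹' Y) := by
  obtain ⟨B, h1, h2, h3⟩ := (hY.cl (α := Unit)).nf
  have a1 : Ar 1 fun p : (List Bool × List Bool) × List Bool =>
      Rel (p.1.1, p.2) → B ((), p.1.2 ++ p.2) :=
    Ar.imp (hR.comp ((Primrec.fst.comp .fst).pair .snd)) (Ar.prim (h1.comp
      ((Primrec.const ()).pair (Primrec.list_append.comp (Primrec.snd.comp .fst) .snd))))
  have hq : IsPi01 (plQ S.B fun d => app (h d) ⁻¹' Y) := by
    refine pl_q_pi S.prim ⟨_, Ar.all (n := 0) a1, fun d y => ?_⟩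
    simp only [hh, mem_preimage, h3 (), forall_eq']
    refine ⟨fun H k => res_app (h d) y k ▸ H _, fun H k => h2 ()
      ((res (app (h d) y) ((h d).length + k)).take (h d).length) _ ?_⟩
    rw [clb_split, add_comm, res_app]
    exact H k
  have e1 : ∀ d y, S.D d → (app d y ∈ (plQ S.B fun d => app (h d) ⁻¹' Y) ↔ app (h d) y ∈ Y) :=
    fun d y hd => by
      have := Set.ext_iff.1 (pl_q_cyl S.mono (fun d => app (h d) ⁻¹' Y) hd) (app d y)
      rwa [mem_inter_iff, and_iff_left (qp_mem_cyl d y), (app_inj d).mem_set_image] at this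
  by_cases hm : m ∈ Y
  · convert hq using 1
    ext x
    rcases S.cases x with hx | ⟨d, y, hd, rfl⟩
    · exact iff_of_true (by rwa [mem_preimage, psi_mem hx])
        fun k hk => absurd ((S.mem x).1 hx k) hk.1
    · rw [mem_preimage, psi_app hd, e1 d y hd]
  · convert hq.inter (isPi01_of_isClopen ((hf hm).isClopen_biUnion
      (f := cyl) fun d _ => isClopen_cyl d)) using 1
    ext x
    rcases S.cases x with hx | ⟨d, y, hd, rfl⟩
    · refine iff_of_false (by rwa [mem_preimage, psi_mem hx]) fun k => ?_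
      obtain ⟨d, hd, k2⟩ := mem_iUnion₂.1 k.2
      exact not_mem hd.1 k2 hx
    · rw [mem_preimage, psi_app hd, mem_inter_iff, e1 d y hd, iff_self_and]
      exact fun k => mem_iUnion₂.2 ⟨d, ⟨hd, _, k, qp_mem_cyl _ _⟩, qp_mem_cyl d y⟩

end Site

/-- The point zero. -/
def pt0 : X := fun _ => false

/-- The cones that leave the point zero. -/
def wd (j : ℕ) : List Bool := true :: (List.range j).map fun _ => false

theorem wd_prim : Primrec wd :=
  Primrec.list_cons.comp (.const true) (Primrec.list_map Primrec.list_range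
    (Primrec.const false).to₂)

theorem wd_len (j : ℕ) : (wd j).tail.length = j := by simp [wd]

theorem qp_mem_res {x : X} {k : ℕ} {b : Bool} : b ∈ res x k ↔ ∃ i < k, x i = b := by
  rw [← List.mem_reverse, res_reverse]
  simp

/-- The point zero as a site. -/
def S0 : Site where
  M := {pt0}
  B s := ¬ ∃ b ∈ s, b = true
  prim := (Primrec.eq.comp Primrec.id (.const true)).exists_mem_list.not
  mono _ _ h h1 := fun ⟨b, k1, k2⟩ => h1 ⟨b, h.subset k1, k2⟩
  mem x := by
    simp only [exists_eq_right, qp_mem_res, mem_singleton_iff]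
    refine ⟨fun h k ⟨i, _, e⟩ => ?_, fun h => funext fun i => ?_⟩
    · rw [h] at e
      exact Bool.noConfusion e
    · exact Bool.eq_false_iff.2 fun e => h (i + 1) ⟨i, by omega, e⟩
  ne := singleton_nonempty _
  nd s h := by
    have e := (h (qp_mem_cyl s pt0)).trans (h (qp_mem_cyl s fun _ => true)).symm
    exact Bool.noConfusion (congrFun (app_inj s e) 0)

theorem S0_wd (j : ℕ) : S0.D (wd j) := by simp [plMd, S0, wd]

theorem S0_eq {d : List Bool} (h : S0.D d) : wd d.tail.length = d := by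
  obtain ⟨h1, h2⟩ := h
  simp only [S0, exists_eq_right, not_not] at h1 h2
  obtain _ | ⟨b, s⟩ := d
  · simp at h1
  · rw [List.tail_cons] at h2
    obtain rfl : true = b := (List.mem_cons.1 h1).resolve_right h2
    rw [List.tail_cons, wd, List.map_const', List.length_range]
    exact congrArg _ (List.eq_replicate_of_mem fun b hb =>
      Bool.eq_false_iff.2 fun e => h2 (e ▸ hb)).symm

theorem pt0_pi : IsPi01 {pt0} :=
  Cl.isPi01 (α := Unit) (C := fun _ => {pt0})
    ⟨fun p => S0.B p.2, Ar.prim (S0.prim.comp .snd), fun _ x => S0.mem x⟩ ()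

end Pool.Agent.Lib.MP_aad418_lc
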