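import Pool.Agent.Lib.MP_aad418_lc.Q.Pull

/-! Numberings of the minimal dead strings. -/

namespace Pool.Agent.Lib.MP_aad418_lc

open Set PiNat Encodable

/-- The string with a given code. -/
def ofn (c : ℕ) : List Bool := (decode c).getD []

theorem ofn_encode (d : List Bool) : ofn (encode d) = d := by simp [ofn]

theorem ofn_prim : Primrec ofn := Primrec.option_getD.comp Primrec.decode (.const [])

theorem ofn_can : PrimrecPred fun c => encode (ofn c) = c :=
  Primrec.eq.comp (Primrec.encode.comp ofn_prim) Primrec.id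

theorem qr_first {C : ℕ × List Bool → Prop} (hC : PrimrecPred C) (h : ∀ j, ∃ d, C (j, d)) :
    ∃ t : ℕ → List Bool, (∀ j, C (j, t j)) ∧ PrimrecPred fun q : ℕ × List Bool => t q.1 = q.2 := by
  classical
  have ex : ∀ j, ∃ c, encode (ofn c) = c ∧ C (j, ofn c) := fun j =>
    (h j).elim fun d hd => ⟨encode d, by rw [ofn_encode], by rwa [ofn_encode]⟩
  have a : Ar 0 fun p : (ℕ × List Bool) × ℕ => ¬ (encode (ofn p.2) = p.2 ∧ C (p.1.1, ofn p.2)) :=
    ((ofn_can.comp .snd).and (hC.comp ((Primrec.fst.comp .fst).pair (ofn_prim.comp .snd)))).not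
  refine ⟨fun j => ofn (Nat.find (ex j)), fun j => (Nat.find_spec (ex j)).2,
    (hC.and (a.ball (Primrec.list_range.comp (Primrec.encode.comp .snd)))).of_eq fun q => ?_⟩
  obtain ⟨j, d⟩ := q
  simp only [List.mem_range]
  constructor
  · rintro ⟨h1, h2⟩
    rw [(Nat.find_eq_iff (ex j)).2 ⟨⟨by rw [ofn_encode], by rwa [ofn_encode]⟩, h2⟩, ofn_encode]
  · intro e
    obtain ⟨h1, h2⟩ := Nat.find_spec (ex j)
    rw [e] at h1 h2
    exact ⟨h2, fun c hc => Nat.find_min (ex j) (h1 ▸ hc)⟩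

namespace Site

variable (S : Site) {σ τ d e : List Bool}

/-- Codes of minimal dead strings above `σ`. -/
def cd (σ : List Bool) (c : ℕ) : Prop := encode (ofn c) = c ∧ S.D (ofn c) ∧ σ <:+ ofn c

open Classical in
/-- The number of minimal dead strings above `σ` that precede `d`. -/
noncomputable def rk (σ d : List Bool) : ℕ := Nat.count (S.cd σ) (encode d)

theorem rk_prim : Primrec₂ S.rk := by
  classical
  have h : PrimrecRel fun c σ => S.cd σ c := (ofn_can.comp .fst).and
    (((pl_md_prim S.prim).comp (ofn_prim.comp .fst)).and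
      (pl_above_prim.comp (Primrec.snd.pair (ofn_prim.comp .fst))))
  refine (Primrec.list_length.comp (h.listFilter.comp
    (Primrec.list_range.comp (Primrec.encode.comp .snd)) .fst)).of_eq fun p => ?_
  rw [rk, Nat.count, List.countP_eq_length_filter]

variable {S}

theorem cd_encode : S.cd σ (encode d) ↔ S.D d ∧ σ <:+ d := by simp [cd, ofn_encode]

theorem rk_mono (h : σ <:+ τ) : S.rk τ d ≤ S.rk σ d := by
  classical
  exact Nat.count_mono_left fun c _ k => ⟨k.1, k.2.1, h.trans k.2.2⟩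

theorem rk_inj (hd : S.D d ∧ σ <:+ d) (he : S.D e ∧ σ <:+ e) (h : S.rk σ d = S.rk σ e) :
    d = e := by
  classical
  exact encode_injective (Nat.count_injective (cd_encode.2 hd) (cd_encode.2 he) h)

theorem rk_surj (h : (S.M ∩ cyl σ).Nonempty) (j : ℕ) : ∃ d, (S.D d ∧ σ <:+ d) ∧ S.rk σ d = j := by
  classical
  have hi : {c | S.cd σ c}.Infinite := ((inf h).image encode_injective.injOn).mono
    (by rintro _ ⟨d, hd, rfl⟩; exact cd_encode.2 hd)
  have k := Nat.nth_mem_of_infinite hi j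
  exact ⟨_, k.2, by rw [rk, k.1]; exact Nat.count_nth_of_infinite hi j⟩

theorem nil_live : (S.M ∩ cyl []).Nonempty := S.ne.imp fun _ h => ⟨h, rfl⟩

theorem exists_bij (S : Site) : ∃ ι : List Bool → ℕ,
    (PrimrecPred fun q : List Bool × ℕ => ι q.1 = q.2) ∧
      (∀ d e, S.D d → S.D e → ι d = ι e → d = e) ∧ ∀ j, ∃ d, S.D d ∧ ι d = j :=
  ⟨S.rk [], Primrec.eq.comp (S.rk_prim.comp (.const []) .fst) .snd,
    fun _ _ hd he => rk_inj ⟨hd, List.nil_suffix⟩ ⟨he, List.nil_suffix⟩,
    fun j => (rk_surj nil_live j).imp fun _ h => ⟨h.1.1, h.2⟩⟩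

theorem exists_spread (S : Site) : ∃ ι : List Bool → ℕ,
    (PrimrecPred fun q : List Bool × ℕ => ι q.1 = q.2) ∧ (∀ j, {d | S.D d ∧ ι d = j}.Finite) ∧
      ∀ σ, (S.M ∩ cyl σ).Nonempty → ∀ j, σ.length ≤ j → ∃ d, S.D d ∧ σ <:+ d ∧ ι d = j := by
  classical
  let c : List Bool × ℕ → Prop := fun q =>
    q.1.length ≤ q.2 ∨ S.rk (q.1.drop (q.1.length - q.2)) q.1 ≤ q.2
  have hl : Primrec fun q : List Bool × ℕ => q.1.length := Primrec.list_length.comp .fst
  have hc : PrimrecPred c := (Primrec.nat_le.comp hl .snd).or (Primrec.nat_le.comp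
    (S.rk_prim.comp (Primrec.list_drop.comp (Primrec.nat_sub.comp hl .snd) .fst) .fst) .snd)
  have ex : ∀ d, ∃ j, c (d, j) := fun d => ⟨_, .inl le_rfl⟩
  have a : Ar 0 fun p : (List Bool × ℕ) × ℕ => ¬ c (p.1.1, p.2) :=
    (hc.comp ((Primrec.fst.comp .fst).pair .snd)).not
  refine ⟨fun d => Nat.find (ex d),
    (hc.and (a.ball (Primrec.list_range.comp .snd))).of_eq fun q => ?_, fun j => ?_,
    fun σ ⟨m, hm, hσ⟩ j hj => ?_⟩
  · simp only [List.mem_range, Nat.find_eq_iff]
  · have f1 := List.finite_length_le Bool j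
    have f2 : ∀ τ, {d | (S.D d ∧ τ <:+ d) ∧ S.rk τ d ≤ j}.Finite := fun τ =>
      Finite.of_finite_image (f := S.rk τ) ((finite_le_nat j).subset (by
        rintro _ ⟨d, hd, rfl⟩; exact hd.2)) fun _ h _ h' => rk_inj h.1 h'.1
    refine (f1.union (f1.biUnion fun τ _ => f2 τ)).subset fun d ⟨hd, e⟩ => ?_
    have k : c (d, j) := e ▸ Nat.find_spec (ex d)
    refine k.imp id fun k => mem_iUnion₂.2 ⟨_, ?_, ⟨hd, List.drop_suffix _ _⟩, k⟩
    simp only [mem_ofPred_eq, List.length_drop]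
    omega
  · obtain ⟨d, ⟨h1, h2⟩, h3⟩ := rk_surj ⟨m, hm, self_mem_cyl m j⟩ j
    have k1 := pl_res_le m hj
    rw [show res m σ.length = σ from hσ] at k1
    have k2 := h2.length_le
    rw [res_length] at k2
    have k3 : ∀ i ≤ j, d.drop (d.length - i) = res m i := fun i hi => by
      have := List.suffix_iff_eq_drop.1 ((pl_res_le m hi).trans h2)
      rw [res_length] at this
      exact this.symm
    refine ⟨d, h1, k1.trans h2, (Nat.find_eq_iff _).2 ⟨.inr ?_, fun i hi => ?_⟩⟩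
    · simp only [k3 j le_rfl, h3, le_refl]
    · have := rk_mono (S := S) (d := d) (pl_res_le m hi.le)
      simp only [c, k3 i hi.le]
      omega

end Site

end Pool.Agent.Lib.MP_aad418_lc
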