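import Pool.Agent.Lib.MP_aad418_lc.Q.Defs
import Pool.Agent.Lib.MP_aad418_lc.Q.AB
import Pool.Agent.Lib.MP_aad418_lc.Q.Mon

/-! The types of a join are sums of types. -/

namespace Pool.Agent.Lib.MP_aad418_lc

open Set PiNat Pointwise

variable {ι κ μ α : Type}

theorem ev_vec {v v' : ι → EPi} {a a' : X} (h : vec v a = vec v' a') (t : Tm ι) :
    a ∈ t.ev v ↔ a' ∈ t.ev v' := by
  induction t with
  | var i => exact Set.ext_iff.1 h i
  | bot => rfl
  | top => rfl
  | sup _ _ h1 h2 => exact or_congr h1 h2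
  | inf _ _ h1 h2 => exact and_congr h1 h2

theorem QF.pat {θ : (ι → EPi) → Prop} (h : QF θ) {v v' : ι → EPi} (e : pat v = pat v') :
    θ v ↔ θ v' := by
  induction h with
  | base h =>
    obtain ⟨s, t, rfl⟩ := h
    have key : ∀ {v v' : ι → EPi}, Pool.Agent.Lib.MP_aad418_lc.pat v =
        Pool.Agent.Lib.MP_aad418_lc.pat v' → s.ev v = t.ev v → s.ev v' = t.ev v' :=
      fun {v v'} e k => Set.ext fun a' => by
        obtain ⟨a, ha⟩ := (Set.ext_iff.1 e _).2 ⟨a', rfl⟩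
        rw [← ev_vec ha, ← ev_vec ha, k]
    exact ⟨key e, key e.symm⟩
  | not _ h => exact not_congr h
  | and _ _ h1 h2 => exact and_congr h1 h2

/-- The join of two tuples. -/
def jt (u v : ι → EPi) : ι → EPi := fun i => jnIso (u i, v i)

/-- One half of a tuple. -/
def hf (b : Bool) (w : ι → EPi) : ι → EPi := fun i => ⟨app [b] ⁻¹' (w i).1, jn_pre b (w i).2⟩

theorem jt_hf (w : ι → EPi) : jt (hf false w) (hf true w) = w :=
  funext fun i => jnIso.apply_symm_apply (w i)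

theorem pat_jt (u v : ι → EPi) : pat (jt u v) = pat u ∪ pat v := by
  have e0 : ∀ y, vec (jt u v) (app [false] y) = vec u y := fun _ => Set.ext fun _ => jn_false
  have e1 : ∀ y, vec (jt u v) (app [true] y) = vec v y := fun _ => Set.ext fun _ => jn_true
  refine Subset.antisymm ?_ (union_subset ?_ ?_) <;> rintro _ ⟨x, rfl⟩
  · rw [← jn_eta x]
    cases x 0
    exacts [.inl ⟨_, (e0 _).symm⟩, .inr ⟨_, (e1 _).symm⟩]
  exacts [⟨_, e0 x⟩, ⟨_, e1 x⟩]

/-- Patterns under union. -/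
abbrev Pt (κ μ : Type) : Type := SetSemiring (Set (κ ⊕ μ))

/-- The type as a set of patterns under union. -/
def tp (μ : Type) (u : κ → EPi) : Set (Pt κ μ) := ty μ u

theorem tp_jt (u v : κ → EPi) : tp μ (jt u v) = tp μ u + tp μ v := by
  have e : ∀ y z : μ → EPi, pat (Sum.elim (jt u v) (jt y z)) =
      pat (Sum.elim u y) ∪ pat (Sum.elim v z) := fun y z => by
    rw [← pat_jt]
    exact congrArg pat (funext fun i => Sum.rec (fun _ => rfl) (fun _ => rfl) i)
  ext V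
  constructor
  · rintro ⟨w, rfl⟩
    exact ⟨_, ⟨hf false w, rfl⟩, _, ⟨hf true w, rfl⟩,
      (e _ _).symm.trans (congrArg (fun w => pat (Sum.elim (jt u v) w)) (jt_hf w))⟩
  · rintro ⟨_, ⟨y, rfl⟩, _, ⟨z, rfl⟩, rfl⟩
    exact ⟨jt y z, e y z⟩

/-- The types of the tuples that begin with `P`. -/
def TT (α μ : Type) (P : EPi) : Set (Set (Pt (Option α) μ)) :=
  {τ | ∃ u : Option α → EPi, u none = P ∧ tp μ u = τ}

theorem TT_jn (P Q : EPi) : TT α μ (jnIso (P, Q)) = TT α μ P + TT α μ Q := by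
  ext τ
  constructor
  · rintro ⟨w, h, rfl⟩
    have k : (hf false w none, hf true w none) = (P, Q) :=
      jnIso.injective ((congrFun (jt_hf w) none).trans h)
    exact ⟨_, ⟨hf false w, congrArg Prod.fst k, rfl⟩, _, ⟨hf true w, congrArg Prod.snd k, rfl⟩,
      (tp_jt _ _).symm.trans (congrArg (tp μ) (jt_hf w))⟩
  · rintro ⟨_, ⟨u, rfl, rfl⟩, _, ⟨v, rfl, rfl⟩, rfl⟩
    exact ⟨jt u v, rfl, tp_jt u v⟩

/-- The empty class. -/
def eE : EPi := ⟨∅, clA_empty⟩

/-- The class of the point zero. -/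
def pE : EPi := ⟨{pt0}, pt0_pi⟩

/-- A class with `k` more points. -/
def ad (B : EPi) : ℕ → EPi
  | 0 => B
  | k + 1 => jnIso (ad B k, pE)

theorem TT_ad (B : EPi) (k : ℕ) : TT α μ (ad B k) = TT α μ B + k • TT α μ pE := by
  induction k with
  | zero => rw [zero_nsmul, add_zero, ad]
  | succ k ih => rw [ad, TT_jn, ih, succ_nsmul, add_assoc]

theorem TT_e (i : ℕ) : TT α μ eE + i • TT α μ eE = TT α μ eE := by
  induction i with
  | zero => rw [zero_nsmul, add_zero]
  | succ i ih =>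
    rw [succ_nsmul, ← add_assoc, ih, ← TT_jn]
    exact congrArg _ (Subtype.ext (show jn ∅ ∅ = ∅ by simp [jn]))

theorem tp_good (n : ℕ) (u : Option α → EPi) (nd : ∀ s, ¬ cyl s ⊆ (u none).1)
    (hom : ∀ i, ∀ x ∈ (u none).1, ∀ y ∈ (u none).1, res x n = res y n → x ∈ (u i).1 → y ∈ (u i).1) :
    ∃ i j : ℕ, ∃ ρ ∈ i • TT α μ eE + j • TT α μ pE, ρ ⊆ tp μ u := by
  induction n generalizing u with
  | zero =>
    rcases (u none).1.eq_empty_or_nonempty with h | h
    · exact ⟨1, 0, _, by rw [one_nsmul, zero_nsmul, add_zero]; exact ⟨u, Subtype.ext h, rfl⟩,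
        Subset.rfl⟩
    · obtain ⟨S, hS⟩ := exists_site (u none).2 h nd
      obtain ⟨u', h1, h2⟩ := tyA (μ := μ) S u fun i => or_iff_not_imp_right.2 fun k y hy => by
        obtain ⟨x, k1, k2⟩ := not_disjoint_iff.1 k
        exact hom i x (hS ▸ k1) y (hS ▸ hy) rfl k2
      exact ⟨0, 1, tp μ u', by
        rw [one_nsmul, zero_nsmul, zero_add]; exact ⟨u', Subtype.ext (h1 _ hS.symm), rfl⟩, h2⟩
  | succ n ih =>
    have key := fun b => ih (hf b u) (fun s h => nd (s ++ [b]) fun x hx => by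
      obtain ⟨y, rfl⟩ : x ∈ range (app [b]) := range_app _ ▸ cyl_append _ _ hx
      have k : res (app [b] y) (s ++ [b]).length = s ++ [b] := hx
      rw [List.length_append, res_app] at k
      exact h (List.append_cancel_right k)) fun i x hx y hy e =>
        hom i _ hx _ hy ((res_app [b] x n).trans (e ▸ (res_app [b] y n).symm))
    obtain ⟨i, j, ρ, h1, h2⟩ := key false
    obtain ⟨i', j', ρ', h3, h4⟩ := key true
    refine ⟨i + i', j + j', ρ + ρ', ?_, ?_⟩
    · rw [add_nsmul, add_nsmul, add_add_add_comm]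
      exact add_mem_add h1 h3
    · rw [← jt_hf u, tp_jt]
      exact add_subset_add h2 h4

theorem tp_abs [Finite α] [Finite μ] {M : EPi} (hne : M.1.Nonempty) (nd : ∀ s, ¬ cyl s ⊆ M.1)
    {τ σ : Set (Pt (Option α) μ)} (hτ : τ ∈ TT α μ pE) (h : σ + τ = σ) :
    ∃ ρ ∈ TT α μ M, ρ + σ ⊆ σ := by
  obtain ⟨u, h1, rfl⟩ := hτ
  obtain ⟨S, hS⟩ := exists_site M.2 hne nd
  obtain ⟨u', h2, h3⟩ := tyB (μ := μ) S u
  refine ⟨_, ⟨u', Subtype.ext ((h2 _ (congrArg Subtype.val h1)).trans hS), rfl⟩, ?_⟩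
  rintro _ ⟨V, hV, U, hU, rfl⟩
  have key : ∀ A : Set (Set (Option α ⊕ μ)), A ⊆ V.down →
      ∃ Z : Pt (Option α) μ, A ⊆ Z.down ∧ Z.down ⊆ V.down ∧ Z + U ∈ σ := fun A => by
    induction A, A.toFinite using Set.Finite.induction_on with
    | empty => exact fun _ => ⟨0, Subset.rfl, empty_subset _, by rwa [zero_add]⟩
    | @insert w A _ _ ih =>
      intro hA
      obtain ⟨Z, k1, k2, k3⟩ := ih ((subset_insert _ _).trans hA)
      obtain ⟨W, k4, k5, k6⟩ := h3 V hV w (hA (mem_insert _ _))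
      refine ⟨Z + W.up, insert_subset (.inr k5) (k1.trans subset_union_left),
        union_subset k2 k6, ?_⟩
      rw [add_right_comm, ← h]
      exact add_mem_add k3 k4
  obtain ⟨Z, k1, k2, k3⟩ := key _ Subset.rfl
  exact (show Z = V from k2.antisymm k1) ▸ k3

end Pool.Agent.Lib.MP_aad418_lc
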