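import Pool.Agent.Lib.MP_aad418_lc.Q.Defs
import Pool.Agent.Lib.MP_aad418_lc.Q.Pull

/-! Finiteness by three quantifier blocks. -/

namespace Pool.Agent.Lib.MP_aad418_lc

open Set PiNat

theorem BC.or {α : Type} {A : (α → Prop) → Prop} {p q : α → Prop} (hp : BC A p) (hq : BC A q) :
    BC A fun a => p a ∨ q a :=
  (funext fun _ => propext or_iff_not_and_not.symm) ▸ (hp.not.and hq.not).not

theorem QF.eq {ι : Type} (s t : Tm ι) : QF fun v => s.ev v = t.ev v := BC.base ⟨s, t, rfl⟩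

/-- The matrix of the formula. -/
def upM (P c Q a r s b t : Set X) : Prop :=
  ¬ (c ∪ P = univ ∧ ¬ c = univ) ∧
    ((¬ (b ∩ a = b ∧ ¬ b = ∅ ∧ ¬ b = a) ∧ (a ∪ r = P ∧ a ∩ r = ∅) ∧
      ¬ (a ∩ t = ∅ ∧ Q ∩ (P ∪ t) = Q)) ∨ (P ∩ s = ∅ ∧ Q ∩ (P ∪ s) = Q))

theorem up_fin {P : EPi} (h : P.1.Finite) (c Q : EPi) :
    ∃ a r s : EPi, ∀ b t : EPi, upM P.1 c.1 Q.1 a.1 r.1 s.1 b.1 t.1 := by
  have h0 : ¬ (c.1 ∪ P.1 = univ ∧ ¬ c.1 = univ) := fun ⟨h1, h2⟩ => h2 (compl_empty_iff.1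
    (subset_empty_iff.1 ((open_subset_derived c.2.isClosed.isOpen_compl).trans_eq
      (derived_eq_empty.2 (h.subset (compl_subset_iff_union.2 h1))))))
  by_cases k : ∃ s : EPi, P.1 ∩ s.1 = ∅ ∧ Q.1 ∩ (P.1 ∪ s.1) = Q.1
  · obtain ⟨s, k⟩ := k
    exact ⟨P, P, s, fun _ _ => ⟨h0, .inr k⟩⟩
  obtain ⟨x, hx, k1⟩ : ∃ x ∈ P.1, ∀ t : EPi, x ∉ t.1 → ¬ Q.1 ⊆ P.1 ∪ t.1 := by
    by_contra! k1
    have key : ∀ A : Set X, A.Finite → A ⊆ P.1 →
        ∃ s : EPi, Disjoint A s.1 ∧ Q.1 ⊆ P.1 ∪ s.1 := fun A hA => by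
      induction A, hA using Set.Finite.induction_on with
      | empty => exact fun _ => ⟨Q, empty_disjoint _, subset_union_right⟩
      | @insert x A _ _ ih =>
        intro hA
        obtain ⟨s, k2, k3⟩ := ih ((subset_insert _ _).trans hA)
        obtain ⟨t, k4, k5⟩ := k1 x (hA (mem_insert _ _))
        exact ⟨⟨_, s.2.inter t.2⟩, disjoint_insert_left.2 ⟨fun e => k4 e.2,
          k2.mono_right inter_subset_left⟩, (subset_inter k3 k5).trans_eq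
            (union_inter_distrib_left _ _ _).symm⟩
    obtain ⟨s, k2, k3⟩ := key _ h Subset.rfl
    exact k ⟨s, k2.inter_eq, inter_eq_left.2 k3⟩
  obtain ⟨n, hn⟩ := exists_cyl (h.subset sdiff_subset (t := P.1 \ {x})).isClosed.isOpen_compl
    (x := x) fun e => e.2 rfl
  have e : P.1 ∩ cyl (res x n) = {x} := Subset.antisymm
    (fun y hy => by_contra fun k2 => hn hy.2 ⟨hy.1, k2⟩)
    (singleton_subset_iff.2 ⟨hx, self_mem_cyl x n⟩)
  refine ⟨⟨_, P.2.inter (clA_cyl (res x n))⟩,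
    ⟨_, P.2.inter (isPi01_of_isClopen (isClopen_cyl (res x n)).compl)⟩, P, fun b t =>
      ⟨h0, .inl ⟨?_, ⟨inter_union_compl _ _, ?_⟩, ?_⟩⟩⟩
  · simp only [e]
    exact fun ⟨k2, k3, k4⟩ => (subset_singleton_iff_eq.1 (inter_eq_left.1 k2)).elim k3 k4
  · exact eq_empty_of_forall_notMem fun y hy => hy.2.2 hy.1.2
  · simp only [e]
    exact fun ⟨k2, k3⟩ => k1 t (singleton_inter_eq_empty.1 k2) (inter_eq_left.1 k3)

theorem up_inf {P : EPi} (h : ∀ c Q : EPi, ∃ a r s : EPi, ∀ b t : EPi,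
    upM P.1 c.1 Q.1 a.1 r.1 s.1 b.1 t.1) : P.1.Finite := by
  have co : ∀ σ, IsPi01 (cyl σ)ᶜ := fun σ => isPi01_of_isClopen (isClopen_cyl σ).compl
  have hi : interior P.1 = ∅ := eq_empty_of_forall_notMem fun x hx => by
    obtain ⟨n, hn⟩ := exists_cyl isOpen_interior hx
    obtain ⟨a, r, s, k⟩ := h ⟨_, co (res x n)⟩ P
    exact (k P P).1 ⟨compl_subset_iff_union.1 ((compl_compl _).subset.trans
      (hn.trans interior_subset)), fun e => (e.symm.subset (mem_univ x)) (self_mem_cyl x n)⟩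
  obtain ⟨Q, hQ, e⟩ := place 0 P.2 hi
  replace e : P.1 ∩ closure (Q \ P.1) = derivedSet P.1 := e
  obtain ⟨a, r, s, k⟩ := h P ⟨Q, hQ⟩
  by_cases k0 : P.1 ∩ s.1 = ∅ ∧ Q ∩ (P.1 ∪ s.1) = Q
  · rw [← derived_eq_empty, ← e, ← subset_empty_iff, ← k0.1]
    exact inter_subset_inter_right _ (closure_minimal
      (fun x hx => (inter_eq_left.1 k0.2 hx.1).resolve_left hx.2) s.2.isClosed)
  replace k := fun b t => (k b t).2.resolve_right k0
  obtain ⟨-, ⟨k1, k2⟩, -⟩ := k P P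
  have sub : a.1.Subsingleton := fun x hx y hy => by
    refine res_injective (funext fun n => by_contra fun k3 =>
      (k ⟨_, a.2.inter (clA_cyl (res x n))⟩ P).1 ⟨inter_eq_left.2 inter_subset_left, Nonempty.ne_empty ⟨x, hx, self_mem_cyl x n⟩,
        fun k4 => k3 (pl_mem_cyl.1 (k4.symm.subset hy).2).symm⟩)
  rcases sub.eq_empty_or_singleton with k3 | ⟨x, k3⟩
  · exact ((k P ⟨Q, hQ⟩).2.2 ⟨by rw [k3, empty_inter], inter_eq_left.2 subset_union_right⟩).elim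
  have k4 : x ∈ a.1 := k3 ▸ rfl
  have k5 : x ∉ closure (Q \ P.1) := fun k5 => by
    have k6 := e.subset ⟨k1.subset (.inl k4), k5⟩
    rw [← k1, derivedSet_union, derived_eq_empty.2 sub.finite, empty_union] at k6
    exact k2.subset ⟨k4, (isClosed_iff_derivedSet_subset _).1 r.2.isClosed k6⟩
  obtain ⟨n, hn⟩ := exists_cyl isClosed_closure.isOpen_compl k5
  exact ((k P ⟨_, co (res x n)⟩).2.2 ⟨k3 ▸ singleton_inter_eq_empty.2 fun e => e (self_mem_cyl x n),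
    inter_eq_left.2 fun y hy => or_iff_not_imp_left.2 fun k6 k7 =>
      hn k7 (subset_closure ⟨hy, k6⟩)⟩).elim

theorem QF.up {ι : Type} (P c Q a r s b t : Tm ι) : QF fun v =>
    upM (P.ev v) (c.ev v) (Q.ev v) (a.ev v) (r.ev v) (s.ev v) (b.ev v) (t.ev v) :=
  ((QF.eq (c.sup P) .top).and (QF.eq c .top).not).not.and
    ((((QF.eq (b.inf a) b).and ((QF.eq b .bot).not.and (QF.eq b a).not)).not.and
      (((QF.eq (a.sup r) P).and (QF.eq (a.inf r) .bot)).and ((QF.eq (a.inf t) .bot).and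
        (QF.eq (Q.inf (P.sup t)) Q)).not)).or
      ((QF.eq (P.inf s) .bot).and (QF.eq (Q.inf (P.sup s)) Q)))

section

variable {l m n : ℕ}

/-- The free variable. -/
def vP : Tm ((Option (Fin l) ⊕ Fin m) ⊕ Fin n) := .var (.inl (.inl none))

/-- Variables of the first block. -/
def vX (i : Fin l) : Tm ((Option (Fin l) ⊕ Fin m) ⊕ Fin n) := .var (.inl (.inl (some i)))

/-- Variables of the second block. -/
def vY (i : Fin m) : Tm ((Option (Fin l) ⊕ Fin m) ⊕ Fin n) := .var (.inl (.inr i))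

/-- Variables of the third block. -/
def vZ (i : Fin n) : Tm ((Option (Fin l) ⊕ Fin m) ⊕ Fin n) := .var (.inr i)

end

theorem up_main : AEA fun P => P.1.Finite := by
  refine ⟨2, 3, 2, _, QF.up vP (vX 0) (vX 1) (vY 0) (vY 1) (vY 2) (vZ 0) (vZ 1),
    fun R => ⟨fun h x => ?_, fun h => up_inf fun c Q => ?_⟩⟩
  · obtain ⟨a, r, s, k⟩ := up_fin h (x 0) (x 1)
    exact ⟨![a, r, s], fun z => k (z 0) (z 1)⟩
  · obtain ⟨y, k⟩ := h ![c, Q]
    exact ⟨y 0, y 1, y 2, fun b t => k ![b, t]⟩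

theorem up_one : AEA fun P => ∀ Q : EPi, Q.1 ∩ P.1 = Q.1 →
    Q.1.Finite ∨ ∃ R : EPi, R.1 ∪ Q.1 = P.1 ∧ R.1 ∩ Q.1 = ∅ := by
  refine ⟨3, 3, 2, _, (QF.eq ((vX 0).inf vP) (vX 0)).not.or
    ((QF.up (vX 0) (vX 1) (vX 2) (vY 0) (vY 1) (vY 2) (vZ 0) (vZ 1)).or
      ((QF.eq ((vY 0).sup (vX 0)) vP).and (QF.eq ((vY 0).inf (vX 0)) .bot))),
    fun P => ⟨fun h x => ?_, fun h Q hQ =>
      or_iff_not_imp_right.2 fun k0 => up_inf fun c Q' => ?_⟩⟩
  · by_cases k : (x 0).1 ∩ P.1 = (x 0).1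
    · rcases h _ k with k | ⟨R, k⟩
      · obtain ⟨a, r, s, k⟩ := up_fin k (x 1) (x 2)
        exact ⟨![a, r, s], fun z => .inr (.inl (k (z 0) (z 1)))⟩
      · exact ⟨fun _ => R, fun _ => .inr (.inr k)⟩
    · exact ⟨fun _ => P, fun _ => .inl k⟩
  · obtain ⟨y, k⟩ := h ![Q, c, Q']
    exact ⟨y 0, y 1, y 2, fun b t =>
      ((k ![b, t]).resolve_left fun e => e hQ).resolve_right fun e => k0 ⟨y 0, e⟩⟩

theorem up_two : AEA fun P => ∀ Q R : EPi, R.1 ∪ Q.1 = P.1 ∧ R.1 ∩ Q.1 = ∅ →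
    Q.1.Finite ∨ R.1.Finite := by
  refine ⟨6, 3, 4, _,
    ((QF.eq ((vX 1).sup (vX 0)) vP).and (QF.eq ((vX 1).inf (vX 0)) .bot)).not.or
      ((QF.up (vX 0) (vX 2) (vX 3) (vY 0) (vY 1) (vY 2) (vZ 0) (vZ 1)).or
        (QF.up (vX 1) (vX 4) (vX 5) (vY 0) (vY 1) (vY 2) (vZ 2) (vZ 3))),
    fun P => ⟨fun h x => ?_, fun h Q R hQ => by_contra fun k0 => ?_⟩⟩
  · by_cases k : (x 1).1 ∪ (x 0).1 = P.1 ∧ (x 1).1 ∩ (x 0).1 = ∅
    · rcases h _ _ k with k | k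
      · obtain ⟨a, r, s, k⟩ := up_fin k (x 2) (x 3)
        exact ⟨![a, r, s], fun z => .inr (.inl (k (z 0) (z 1)))⟩
      · obtain ⟨a, r, s, k⟩ := up_fin k (x 4) (x 5)
        exact ⟨![a, r, s], fun z => .inr (.inr (k (z 2) (z 3)))⟩
    · exact ⟨fun _ => P, fun _ => .inl k⟩
  · have k1 := mt up_inf (not_or.1 k0).1
    have k2 := mt up_inf (not_or.1 k0).2
    push Not at k1 k2
    obtain ⟨c, S, k1⟩ := k1
    obtain ⟨c', S', k2⟩ := k2
    obtain ⟨y, k⟩ := h ![Q, R, c, S, c', S']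
    obtain ⟨b, t, k1⟩ := k1 (y 0) (y 1) (y 2)
    obtain ⟨b', t', k2⟩ := k2 (y 0) (y 1) (y 2)
    exact ((k ![b, t, b', t']).resolve_left fun e => e hQ).elim k1 k2

theorem up_min : BC AEA Minimal := by
  convert (BC.base up_main).not.and ((BC.base up_one).and (BC.base up_two)) using 2 with P
  refine and_congr_right fun _ => ⟨fun h => ⟨fun Q hQ => ?_, fun Q R ⟨h1, h2⟩ => ?_⟩,
    fun ⟨h1, h2⟩ Q hQ => ?_⟩
  · refine (h Q (inter_eq_left.1 hQ)).imp_right fun k => ?_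
    obtain ⟨C, k1, k2, k3⟩ := exists_clopen_of_closed_subset_open k.isClosed
      Q.2.isClosed.isOpen_compl fun _ e => e.2
    refine ⟨⟨_, P.2.inter (isPi01_of_isClopen k1)⟩, Subset.antisymm
      (union_subset inter_subset_left (inter_eq_left.1 hQ)) fun x hx => ?_,
      eq_empty_of_forall_notMem fun x hx => k3 hx.1.2 hx.2⟩
    exact or_iff_not_imp_right.2 fun e => ⟨hx, k2 ⟨hx, e⟩⟩
  · exact (h Q (subset_union_right.trans_eq h1)).imp_right fun k => k.subset fun x hx =>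
      ⟨h1.subset (.inl hx), fun e => h2.subset ⟨hx, e⟩⟩
  · refine (h1 Q (inter_eq_left.2 hQ)).elim .inl fun ⟨R, k⟩ => (h2 Q R k).imp_right fun e => ?_
    exact e.subset fun x hx => (k.1.symm.subset hx.1).resolve_right hx.2

end Pool.Agent.Lib.MP_aad418_lc
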